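import Pool.Agent.N89.HX.Stm

/-!
Project HX (helper89): the universal resolvent (helper40).
-/

set_option autoImplicit false

namespace Pool.Agent.N40.HX

open Polynomial Pool.Agent.N89.HX

/-- the polynomials in the variables `ω` -/
abbrev AE (e : ℕ) : Type := MvPolynomial (Fin e) ℤ

lemma surj (R : Type) [CommRing R] (n : ℕ) (p : MvPolynomial (Fin n) R)
    (hp : ∀ σ : Equiv.Perm (Fin n), MvPolynomial.rename σ p = p) :
    ∃ q : MvPolynomial (Fin n) R,
      MvPolynomial.aeval (fun i : Fin n => MvPolynomial.esymm (Fin n) R (i.1 + 1)) q = p := by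
  obtain ⟨q, hq⟩ := MvPolynomial.esymmAlgHom_surjective R (σ := Fin n) (n := n)
    (by rw [Fintype.card_fin]) ⟨p, hp⟩
  refine ⟨q, ?_⟩
  rw [← MvPolynomial.esymmAlgHom_apply, hq]

/-- the resolvent with independent roots -/
noncomputable def PP (e : ℕ) : (MvPolynomial (Fin e) (AE e))[X] :=
  ∏ τ : Equiv.Perm (Fin e), (X - C (∑ i, MvPolynomial.C (MvPolynomial.X i) * MvPolynomial.X (τ i)))

lemma PP_symm (e : ℕ) (σ : Equiv.Perm (Fin e)) (j : ℕ) :
    MvPolynomial.rename σ ((PP e).coeff j) = (PP e).coeff j := by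
  have h : (PP e).map (MvPolynomial.rename σ : MvPolynomial (Fin e) (AE e) →ₐ[AE e] _).toRingHom = PP e := by
    unfold PP
    rw [Polynomial.map_prod, ← Equiv.prod_comp (Equiv.mulLeft σ) (fun τ : Equiv.Perm (Fin e) =>
      (X - C (∑ i, MvPolynomial.C (MvPolynomial.X i) * MvPolynomial.X (τ i)) :
        (MvPolynomial (Fin e) (AE e))[X]))]
    apply Finset.prod_congr rfl
    intro τ _
    rw [Polynomial.map_sub, map_X, map_C]
    congr 2
    rw [map_sum]
    apply Finset.sum_congr rfl
    intro i _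
    simp
  have h1 := congrArg (fun q : (MvPolynomial (Fin e) (AE e))[X] => q.coeff j) h
  simp only [coeff_map] at h1
  exact h1

lemma PP_monic (e : ℕ) : (PP e).Monic := by
  unfold PP
  exact monic_prod_of_monic _ _ fun τ _ => monic_X_sub_C _

lemma PP_natDegree (e : ℕ) : (PP e).natDegree = e.factorial := by
  unfold PP
  rw [natDegree_prod_of_monic _ _ (fun τ _ => monic_X_sub_C _)]
  simp only [natDegree_X_sub_C]
  rw [Finset.sum_const, Finset.card_univ, Fintype.card_perm, Fintype.card_fin]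
  simp

/-- evaluation -/
noncomputable def ev {M : Type} [Field M] {e : ℕ} (ω W : Fin e → M) :
    MvPolynomial (Fin e) (AE e) →+* M :=
  MvPolynomial.eval₂Hom (MvPolynomial.aeval ω : AE e →ₐ[ℤ] M).toRingHom W

lemma ev_C {M : Type} [Field M] {e : ℕ} (ω W : Fin e → M) (a : AE e) :
    ev ω W (MvPolynomial.C a) = MvPolynomial.aeval ω a := by
  unfold ev
  rw [MvPolynomial.eval₂Hom_C]
  rfl

lemma ev_X {M : Type} [Field M] {e : ℕ} (ω W : Fin e → M) (i : Fin e) :
    ev ω W (MvPolynomial.X i) = W i := by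
  unfold ev
  rw [MvPolynomial.eval₂Hom_X']

lemma PP_ev {M : Type} [Field M] {e : ℕ} (ω W : Fin e → M) :
    (PP e).map (ev ω W) = ∏ τ : Equiv.Perm (Fin e), (X - C (∑ i, ω i * W (τ i))) := by
  unfold PP
  rw [Polynomial.map_prod]
  apply Finset.prod_congr rfl
  intro τ _
  rw [Polynomial.map_sub, map_X, map_C]
  congr 2
  rw [map_sum]
  apply Finset.sum_congr rfl
  intro i _
  rw [map_mul, ev_C, ev_X, MvPolynomial.aeval_X]

lemma vieta {M : Type} [Field M] {e : ℕ} (f : Fin (e + 1) → M) (W : Fin e → M)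
    (h : mono f = ∏ i, (X - C (W i))) (m : Fin e) :
    ∑ t ∈ Finset.powersetCard (m.1 + 1) (Finset.univ : Finset (Fin e)), ∏ i ∈ t, W i =
      (-1) ^ (m.1 + 1) * (f (Fin.last e) ^ m.1 * f (⟨e - 1 - m.1, by omega⟩ : Fin e).castSucc) := by
  have hm := m.2
  have h1 : (mono f).coeff (e - 1 - m.1) = (∏ i, (X - C (W i))).coeff (e - 1 - m.1) := by rw [h]
  have h2 : (mono f).coeff (e - 1 - m.1) =
      f (Fin.last e) ^ m.1 * f (⟨e - 1 - m.1, by omega⟩ : Fin e).castSucc := by
    unfold mono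
    rw [coeff_add, coeff_X_pow, if_neg (by omega), zero_add, Polynomial.finsetSum_coeff]
    rw [Finset.sum_eq_single (⟨e - 1 - m.1, by omega⟩ : Fin e)]
    · rw [coeff_C_mul, coeff_X_pow, if_pos rfl, mul_one]
      have h3 : e - 1 - (e - 1 - m.1) = m.1 := by omega
      simp only [h3]
    · intro i _ hi
      rw [coeff_C_mul, coeff_X_pow, if_neg, mul_zero]
      intro h3
      apply hi
      apply Fin.ext
      exact h3.symm
    · intro h3
      exact absurd (Finset.mem_univ _) h3
  have h4 : (∏ i, (X - C (W i))).coeff (e - 1 - m.1) =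
      (-1) ^ (m.1 + 1) * ∑ t ∈ Finset.powersetCard (m.1 + 1) (Finset.univ : Finset (Fin e)), ∏ i ∈ t, W i := by
    have h5 : (∏ i, (X - C (W i))) = (((Finset.univ : Finset (Fin e)).val.map W).map
        fun t => X - C t).prod := by
      rw [Multiset.map_map]
      rfl
    have h6 : Multiset.card ((Finset.univ : Finset (Fin e)).val.map W) = e := by simp
    rw [h5, Multiset.prod_X_sub_C_coeff _ (by rw [h6]; omega), h6]
    have h7 : e - (e - 1 - m.1) = m.1 + 1 := by omega
    rw [h7, Finset.esymm_map_val]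
  rw [h2, h4] at h1
  rw [h1, ← mul_assoc, ← mul_pow]
  simp

/-- the substitution of the coefficients -/
noncomputable def Phi (e : ℕ) : MvPolynomial (Fin e) (AE e) →+* MvPolynomial (Fin (e + 1) ⊕ Fin e) ℤ :=
  MvPolynomial.eval₂Hom (MvPolynomial.rename Sum.inr : AE e →ₐ[ℤ] _).toRingHom
    (fun m : Fin e => (-1) ^ (m.1 + 1) * (MvPolynomial.X (Sum.inl (Fin.last e)) ^ m.1 *
      MvPolynomial.X (Sum.inl (⟨e - 1 - m.1, by omega⟩ : Fin e).castSucc)))

lemma key {M : Type} [Field M] {e : ℕ} (f : Fin (e + 1) → M) (ω W : Fin e → M)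
    (h : mono f = ∏ i, (X - C (W i))) (q : MvPolynomial (Fin e) (AE e)) :
    MvPolynomial.aeval (Sum.elim f ω) (Phi e q) =
      ev ω W (MvPolynomial.aeval (fun i : Fin e => MvPolynomial.esymm (Fin e) (AE e) (i.1 + 1)) q) := by
  have h1 : ((MvPolynomial.aeval (Sum.elim f ω) : MvPolynomial (Fin (e + 1) ⊕ Fin e) ℤ →ₐ[ℤ] M).toRingHom.comp
      (Phi e)) = (ev ω W).comp (MvPolynomial.aeval (fun i : Fin e =>
        MvPolynomial.esymm (Fin e) (AE e) (i.1 + 1)) : MvPolynomial (Fin e) (AE e) →ₐ[AE e] _).toRingHom := by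
    apply MvPolynomial.ringHom_ext
    · intro a
      have e1 : Phi e (MvPolynomial.C a) = MvPolynomial.rename Sum.inr a := by
        unfold Phi
        rw [MvPolynomial.eval₂Hom_C]
        rfl
      change MvPolynomial.aeval (Sum.elim f ω) (Phi e (MvPolynomial.C a)) =
        ev ω W (MvPolynomial.aeval _ (MvPolynomial.C a))
      rw [e1, MvPolynomial.aeval_rename, MvPolynomial.aeval_C, MvPolynomial.algebraMap_eq, ev_C]
      rfl
    · intro m
      have e1 : Phi e (MvPolynomial.X m) = (-1) ^ (m.1 + 1) *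
          (MvPolynomial.X (Sum.inl (Fin.last e)) ^ m.1 *
            MvPolynomial.X (Sum.inl (⟨e - 1 - m.1, by omega⟩ : Fin e).castSucc)) := by
        unfold Phi
        rw [MvPolynomial.eval₂Hom_X']
      change MvPolynomial.aeval (Sum.elim f ω) (Phi e (MvPolynomial.X m)) =
        ev ω W (MvPolynomial.aeval _ (MvPolynomial.X m))
      rw [e1, MvPolynomial.aeval_X, map_mul, map_mul, map_pow, map_pow, map_neg, map_one,
        MvPolynomial.aeval_X, MvPolynomial.aeval_X, Sum.elim_inl, Sum.elim_inl, MvPolynomial.esymm,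
        map_sum]
      simp only [map_prod, ev_X]
      exact (vieta f W h m).symm
  exact congrArg (fun g : MvPolynomial (Fin e) (AE e) →+* M => g q) h1

theorem main : S_RES := by
  intro e _
  choose Q hQ using fun j : Fin e.factorial => surj (AE e) e ((PP e).coeff j) (fun σ => PP_symm e σ j)
  refine ⟨⟨fun j => Phi e (Q j), ?_⟩⟩
  intro M _ f ω W h
  unfold rs
  rw [← PP_ev]
  have hm : ((PP e).map (ev ω W)).Monic := (PP_monic e).map _
  have hd : ((PP e).map (ev ω W)).natDegree = e.factorial := by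
    rw [(PP_monic e).natDegree_map, PP_natDegree]
  rw [hm.as_sum, hd]
  congr 1
  rw [← Fin.sum_univ_eq_sum_range (fun i => C (((PP e).map (ev ω W)).coeff i) * X ^ i) e.factorial]
  apply Finset.sum_congr rfl
  intro j _
  rw [key f ω W h, hQ, coeff_map]

end Pool.Agent.N40.HX
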